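import Mathlib
import Pool.Agent.Helper37_CAP.Stmts

/-!
# Squad CAP (MP_a03075_co): modules SMD and CNT
-/

set_option autoImplicit false

open Finset

namespace Pool.Agent.CAP.H70

theorem smd : SMD := by
  intro z N hz
  induction N using induction_on_primes with
  | zero => intro h; omega
  | one =>
    intro _
    exact ⟨1, 1, rfl, fun q hq h => absurd (Nat.dvd_one.mp h) hq.one_lt.ne', Or.inl (by omega)⟩
  | prime_mul p a hp ih =>
    intro h
    have ha : 1 ≤ a := Nat.pos_of_ne_zero (by rintro rfl; simp at h)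
    obtain ⟨s, Y, hN, hY, hs⟩ := ih ha
    rcases le_or_gt p z with hpz | hpz
    · refine ⟨p * s, Y, by rw [hN]; ring, hY, ?_⟩
      rcases hs with hs | ⟨u, hu, h1, h2⟩
      · rcases le_or_gt (p * s) z with h3 | h3
        · exact Or.inl h3
        · refine Or.inr ⟨p * s, dvd_rfl, h3, ?_⟩
          rw [pow_two]
          exact Nat.mul_le_mul hpz hs
      · exact Or.inr ⟨u, hu.trans (Dvd.intro_left p rfl), h1, h2⟩
    · refine ⟨s, p * Y, by rw [hN]; ring, ?_, hs⟩
      intro q hq hqd
      rcases (Nat.Prime.dvd_mul hq).mp hqd with h1 | h1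
      · rwa [(Nat.prime_dvd_prime_iff_eq hq hp).mp h1]
      · exact hY q hq h1

theorem mono (E F : ℕ → Prop) (X : ℕ) (h : ∀ n, 1 ≤ n → n ≤ X → E n → F n) :
    CAP.cnt E X ≤ CAP.cnt F X := by
  classical
  unfold CAP.cnt
  apply Finset.card_le_card
  intro n hn
  rw [Finset.mem_filter, Finset.mem_Icc] at hn ⊢
  exact ⟨hn.1, h n hn.1.1 hn.1.2 hn.2⟩

theorem card_modEq (a M X : ℕ) (hM : 1 ≤ M) :
    (CAP.cnt (fun n => n ≡ a [MOD M]) X : ℝ) ≤ (X : ℝ) / M + 1 := by
  have h1 : CAP.cnt (fun n => n ≡ a [MOD M]) X ≤ X / M + 1 := by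
    unfold CAP.cnt
    have h2 : ∀ n ∈ (Finset.Icc 1 X).filter (fun n => n ≡ a [MOD M]),
        n / M ∈ Finset.range (X / M + 1) := by
      intro n hn
      rw [Finset.mem_filter, Finset.mem_Icc] at hn
      rw [Finset.mem_range]
      exact Nat.lt_succ_of_le (Nat.div_le_div_right hn.1.2)
    have h3 : ((Finset.Icc 1 X).filter (fun n => n ≡ a [MOD M])).card ≤
        (Finset.range (X / M + 1)).card := by
      apply Finset.card_le_card_of_injOn (fun n => n / M)
      · intro n hn
        exact h2 n (by simpa using hn)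
      · intro n hn n' hn' he
        have hn1 : n ≡ a [MOD M] := by
          have := Finset.mem_coe.mp hn
          exact (Finset.mem_filter.mp this).2
        have hn2 : n' ≡ a [MOD M] := by
          have := Finset.mem_coe.mp hn'
          exact (Finset.mem_filter.mp this).2
        have h4 : n % M = n' % M := hn1.trans hn2.symm
        have h5 : n / M = n' / M := he
        rw [← Nat.div_add_mod n M, ← Nat.div_add_mod n' M, h4, h5]
    rw [Finset.card_range] at h3
    convert h3
  have h6 : (CAP.cnt (fun n => n ≡ a [MOD M]) X : ℝ) ≤ ((X / M + 1 : ℕ) : ℝ) := by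
    exact_mod_cast h1
  refine h6.trans ?_
  push_cast
  have := @Nat.cast_div_le ℝ _ _ _ X M
  linarith

theorem cnt_le_add (G E F : ℕ → Prop) (X : ℕ) (hG : ∀ n, G n → E n ∨ F n) :
    CAP.cnt G X ≤ CAP.cnt E X + CAP.cnt F X := by
  classical
  unfold CAP.cnt
  refine le_trans (Finset.card_le_card ?_) (Finset.card_union_le _ _)
  intro n hn
  have hn' := Finset.mem_filter.mp hn
  rcases hG n hn'.2 with h | h
  · exact Finset.mem_union_left _ (Finset.mem_filter.mpr ⟨hn'.1, h⟩)
  · exact Finset.mem_union_right _ (Finset.mem_filter.mpr ⟨hn'.1, h⟩)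

theorem cnt_or (E F : ℕ → Prop) (X : ℕ) :
    CAP.cnt (fun n => E n ∨ F n) X ≤ CAP.cnt E X + CAP.cnt F X :=
  cnt_le_add _ E F X (fun _ h => h)

/-- CNT: basic facts on the counting function. -/
theorem cnt_basic : CNT := by
  refine ⟨mono, cnt_or, ?_, card_modEq, ?_, ?_⟩
  · intro ι I F X
    classical
    induction I using Finset.induction_on with
    | empty =>
      unfold CAP.cnt
      simp
    | insert i I hi ih =>
      rw [Finset.sum_insert hi]
      have h1 : CAP.cnt (fun n => ∃ j ∈ insert i I, F j n) X ≤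
          CAP.cnt (fun n => F i n ∨ ∃ j ∈ I, F j n) X := by
        apply mono
        rintro n - - ⟨j, hj, hF⟩
        rcases Finset.mem_insert.mp hj with rfl | hj
        · exact Or.inl hF
        · exact Or.inr ⟨j, hj, hF⟩
      have h2 : CAP.cnt (fun n => F i n ∨ ∃ j ∈ I, F j n) X ≤
          CAP.cnt (F i) X + CAP.cnt (fun n => ∃ j ∈ I, F j n) X :=
        cnt_or (F i) (fun n => ∃ j ∈ I, F j n) X
      omega
  · intro E X
    classical
    unfold CAP.cnt
    refine (Finset.card_filter_le _ _).trans ?_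
    simp
  · intro z X
    classical
    unfold CAP.cnt
    have h1 : (Finset.Icc 1 X).filter (fun n => n ≤ z) ⊆ Finset.Icc 1 z := by
      intro n hn
      rw [Finset.mem_filter, Finset.mem_Icc] at hn
      rw [Finset.mem_Icc]
      exact ⟨hn.1.1, hn.2⟩
    have h2 := Finset.card_le_card h1
    rw [Nat.card_Icc] at h2
    convert h2
    omega

end Pool.Agent.CAP.H70
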